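import Pool.Agent.KS6_9.MP_d61ac0_an.Family
import Pool.Graph.R_seed8.Results.MP_d61ac0_an.SquareRootSymbol

/-!
# A one-parameter semigroup of complex symmetric weighted composition operators

The definitions `Hardy`, `toFun`, `mean`, `IsHardySpace`, `Op`, `ip`, `IsAdjointOf`, `IsWCO`,
`IsConjugation` and `IsLinearFractional` are those of the earlier result
`MP_d61ac0_an.SquareRootSymbol`, which is the case `τ = 1 / 2` of the theorem below.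
-/

set_option autoImplicit false

namespace Pool.Agent.Results.MP_d61ac0_an.LensSemigroup

open Set Metric
open scoped ComplexConjugate
open Pool.Agent.Results.MP_d61ac0_an.SquareRootSymbol

/-- The lens map of the disc, `((1 + x)^τ - (1 - x)^τ) / ((1 + x)^τ + (1 - x)^τ)`, that is
`tanh (τ artanh x)`. -/
noncomputable def lens (τ : ℝ) (x : ℂ) : ℂ :=
  ((1 + x) ^ (τ : ℂ) - (1 - x) ^ (τ : ℂ)) / ((1 + x) ^ (τ : ℂ) + (1 - x) ^ (τ : ℂ))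

theorem lens_eq (τ : ℝ) {x : ℂ} (hx : ‖x‖ < 1) : lens τ x = Pool.Agent.KS6_9.Lens.lam τ x := by
  have h1 := Pool.Agent.KS6_9.Lens.ne_of_re_pos (Pool.Agent.KS6_9.Lens.one_add_re hx)
  have h2 := Pool.Agent.KS6_9.Lens.ne_of_re_pos (Pool.Agent.KS6_9.Lens.one_sub_re hx)
  have e : Complex.exp (τ * Pool.Agent.V1197.CW.Lg x) =
      (1 + x) ^ (τ : ℂ) / (1 - x) ^ (τ : ℂ) := by
    rw [Complex.cpow_def_of_ne_zero h1, Complex.cpow_def_of_ne_zero h2, ← Complex.exp_sub,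
      Pool.Agent.V1197.CW.Lg]
    congr 1; ring
  have h3 : (1 - x) ^ (τ : ℂ) ≠ 0 := by
    rw [Complex.cpow_def_of_ne_zero h2]; exact Complex.exp_ne_zero _
  rw [lens, Pool.Agent.KS6_9.Lens.lam, e, div_sub_one h3, div_add_one h3, div_div_div_cancel_right₀ h3]

open Classical in
/-- **A semigroup of complex symmetric weighted composition operators whose symbols are not linear
fractional.**  There is one conjugation `C` of the Hardy space such that for all `0 < τ < 1` the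
following holds.  Let `φ τ (x²) = (lens τ x)²` and `ψ τ (x²) = (lens τ x) / x` (this defines
holomorphic functions on the disc, `ψ τ 0 = τ`).  Then the weighted composition operator `W τ` with
weight `ψ τ` and symbol `φ τ` is bounded (a contraction), it satisfies `C (W τ) = (W τ)^* C`, and
`φ τ` is not constant and not linear fractional.  Moreover `W σ ∘ W τ = W (σ τ)`. -/
theorem result : IsHardySpace ∧ ∃ C : Hardy → Hardy, IsConjugation C ∧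
    ∃ (ψ φ : ℝ → ℂ → ℂ) (W V : ℝ → Op), ∀ τ : ℝ, 0 < τ → τ < 1 →
      (∀ x ∈ ball (0 : ℂ) 1, φ τ (x ^ 2) = lens τ x ^ 2 ∧ x * ψ τ (x ^ 2) = lens τ x) ∧
      ψ τ 0 = τ ∧
      DifferentiableOn ℂ (ψ τ) (ball 0 1) ∧ DifferentiableOn ℂ (φ τ) (ball 0 1) ∧
      MapsTo (φ τ) (ball 0 1) (ball 0 1) ∧
      (∃ z ∈ ball (0 : ℂ) 1, ψ τ z ≠ 0) ∧
      (∃ z ∈ ball (0 : ℂ) 1, ∃ w ∈ ball (0 : ℂ) 1, φ τ z ≠ φ τ w) ∧
      ¬ IsLinearFractional (φ τ) ∧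
      ‖W τ‖ ≤ 1 ∧ IsWCO (ψ τ) (φ τ) (W τ) ∧ IsAdjointOf (V τ) (W τ) ∧
      (∀ x, C (W τ x) = V τ (C x)) ∧
      (∀ σ : ℝ, 0 < σ → σ < 1 → ∀ x, W σ (W τ x) = W (σ * τ) x) := by
  refine ⟨Pool.Agent.Results.MP_d61ac0_an.SquareRootSymbol.result.1,
    Pool.Agent.V1197.CW.CC, ⟨Pool.Agent.V1197.CW.CC_add, Pool.Agent.V1197.CW.CC_smul,
      Pool.Agent.V1197.CW.CC_norm, Pool.Agent.V1197.CW.CC_CC⟩,
    Pool.Agent.KS6_9.Lens.psi, Pool.Agent.KS6_9.Lens.phi,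
    fun τ => if h : 0 ≤ τ ∧ τ ≤ 1 then Pool.Agent.KS6_9.Lens.W h.1 h.2 else 0,
    fun τ => if h : 0 ≤ τ ∧ τ ≤ 1 then
      ContinuousLinearMap.adjoint (Pool.Agent.KS6_9.Lens.W h.1 h.2) else 0,
    fun τ h0 h1 => ?_⟩
  have hτ : 0 ≤ τ ∧ τ ≤ 1 := ⟨h0.le, h1.le⟩
  refine ⟨fun x hx => ?_, Pool.Agent.KS6_9.Lens.psi_zero hτ.1 hτ.2,
    Pool.Agent.KS6_9.Lens.psi_diffOn hτ.1 hτ.2, Pool.Agent.KS6_9.Lens.phi_diffOn hτ.1 hτ.2,
    fun z hz => ?_, ⟨0, mem_ball_self one_pos, ?_⟩,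
    ⟨((Pool.Agent.KS6_9.Lens.X 1 : ℝ) : ℂ) ^ 2, ?_, 0, mem_ball_self one_pos, ?_⟩, ?_, ?_, ?_, ?_,
    ?_, ?_⟩
  · rw [mem_ball_zero_iff] at hx
    rw [lens_eq τ hx]
    exact ⟨Pool.Agent.KS6_9.Lens.phi_sq hτ.1 hτ.2 hx, Pool.Agent.KS6_9.Lens.psi_sq hτ.1 hτ.2 hx⟩
  · rw [mem_ball_zero_iff] at hz ⊢
    exact Pool.Agent.KS6_9.Lens.phi_lt hτ.1 hτ.2 hz
  · rw [Pool.Agent.KS6_9.Lens.psi_zero hτ.1 hτ.2]
    exact_mod_cast h0.ne'
  · rw [mem_ball_zero_iff]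
    exact Pool.Agent.KS6_9.Lens.sq_lt hτ.1 hτ.2 (Pool.Agent.KS6_9.Lens.X_lt 1)
  · rw [Pool.Agent.KS6_9.Lens.phi_sq hτ.1 hτ.2 (Pool.Agent.KS6_9.Lens.X_lt 1),
      Pool.Agent.KS6_9.Lens.lam_X, Pool.Agent.KS6_9.Lens.phi, zero_mul]
    refine pow_ne_zero 2 ?_
    rw [Complex.ofReal_ne_zero, Pool.Agent.KS6_9.Lens.X]
    have : 1 < Real.exp (τ * 1) := Real.one_lt_exp_iff.2 (by linarith)
    exact (div_pos (by linarith) (by linarith)).ne'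
  · rintro ⟨a, b, c, d, hne, h⟩
    exact Pool.Agent.KS6_9.Lens.not_lft h0 h1
      ⟨a, b, c, d, hne, fun z hz => h z (mem_ball_zero_iff.2 hz)⟩
  · simp only [dif_pos hτ]
    exact Pool.Agent.KS6_9.Lens.W_norm hτ.1 hτ.2
  · intro f z hz
    simp only [dif_pos hτ]
    exact Pool.Agent.KS6_9.Lens.ev_W hτ.1 hτ.2 f (mem_ball_zero_iff.1 hz)
  · intro x y
    simp only [dif_pos hτ]
    exact ContinuousLinearMap.adjoint_inner_left _ y x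
  · intro x
    simp only [dif_pos hτ]
    exact Pool.Agent.KS6_9.Lens.CC_W hτ.1 hτ.2 x
  · intro σ s0 s1 x
    have hσ : 0 ≤ σ ∧ σ ≤ 1 := ⟨s0.le, s1.le⟩
    have hστ : 0 ≤ σ * τ ∧ σ * τ ≤ 1 := ⟨by positivity, by nlinarith⟩
    simp only [dif_pos hτ, dif_pos hσ, dif_pos hστ]
    exact Pool.Agent.KS6_9.Lens.W_mul hσ.1 hσ.2 hτ.1 hτ.2 hστ.1 hστ.2 x

end Pool.Agent.Results.MP_d61ac0_an.LensSemigroup
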